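import Mathlib
import Pool.Agent.Q88.SM.Sqrt

/-!
# Self-adjoint operators on smooth Banach spaces: `‖T‖² - T²` and `T² - μ(T)²` are strongly normal
-/

set_option autoImplicit false

namespace Pool.Agent.Results.MP_cd4dc1_an.BothStronglyNormal

universe u

/-- `X` is smooth: every unit vector has exactly one norm-one supporting functional. -/
def Smooth (X : Type u) [NormedAddCommGroup X] [NormedSpace ℂ X] : Prop :=
  ∀ x : X, ‖x‖ = 1 → ∃! f : X →L[ℂ] ℂ, ‖f‖ = 1 ∧ f x = 1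

variable {X : Type u} [NormedAddCommGroup X] [NormedSpace ℂ X]

/-- `J` is the duality map: `‖J x‖ = ‖x‖` and `J x x = ‖x‖ ^ 2`. -/
def IsDualityMap (J : X → X →L[ℂ] ℂ) : Prop :=
  ∀ x, ‖J x‖ = ‖x‖ ∧ J x x = ((‖x‖ ^ 2 : ℝ) : ℂ)

/-- `T` is self-adjoint: `J (T x) y = J x (T y)` for all `x, y`. -/
def SelfAdjoint (J : X → X →L[ℂ] ℂ) (T : X →L[ℂ] X) : Prop :=
  ∀ x y, J (T x) y = J x (T y)

/-- `T` is strongly normal: the square of a self-adjoint operator. -/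
def StronglyNormal (J : X → X →L[ℂ] ℂ) (T : X →L[ℂ] X) : Prop :=
  ∃ S : X →L[ℂ] X, SelfAdjoint J S ∧ T = S * S

/-- The minimum modulus `μ(T)`, the infimum of `‖T x‖` over the unit sphere. -/
noncomputable def minModulus (T : X →L[ℂ] X) : ℝ := sInf {r | ∃ x : X, ‖x‖ = 1 ∧ r = ‖T x‖}

/-- Let `X` be a smooth complex Banach space. There is exactly one duality map `J`, and for every
self-adjoint `T` the operators `‖T‖ ^ 2 - T ^ 2` and `T ^ 2 - μ(T) ^ 2` are strongly normal. -/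
theorem result (X : Type u) [NormedAddCommGroup X] [NormedSpace ℂ X] [CompleteSpace X]
    (hX : Smooth X) :
    (∃! J : X → X →L[ℂ] ℂ, IsDualityMap J) ∧
    ∀ J : X → X →L[ℂ] ℂ, IsDualityMap J → ∀ T : X →L[ℂ] X, SelfAdjoint J T →
      StronglyNormal J ((‖T‖ ^ 2) • (1 : X →L[ℂ] X) - T * T) ∧
      StronglyNormal J (T * T - (minModulus T ^ 2) • (1 : X →L[ℂ] X)) := by
  have hX' : Q88.SM.Smooth X := hX
  refine ⟨?_, ?_⟩
  · have hex : ∀ x : X, ∃ f : X →L[ℂ] ℂ, ‖f‖ = ‖x‖ ∧ f x = ((‖x‖ ^ 2 : ℝ) : ℂ) := by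
      intro x
      by_cases hx : x = 0
      · exact ⟨0, by simp [hx], by simp [hx]⟩
      · obtain ⟨g, hg1, hg2⟩ := exists_dual_vector ℂ x (norm_ne_zero_iff.2 hx)
        refine ⟨((‖x‖ : ℝ) : ℂ) • g, ?_, ?_⟩
        · rw [norm_smul, hg1, mul_one, Complex.norm_real, norm_norm]
        · have e : (((‖x‖ : ℝ) : ℂ) • g) x = ((‖x‖ : ℝ) : ℂ) * g x := rfl
          rw [e, hg2]
          have e2 : ((‖x‖ ^ 2 : ℝ) : ℂ) = ((‖x‖ : ℝ) : ℂ) * ((‖x‖ : ℝ) : ℂ) := by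
            push_cast
            ring
          rw [e2]
          rfl
    choose J hJ using hex
    refine ⟨J, hJ, fun J' hJ' => ?_⟩
    funext x
    refine Q88.SM.J_eq hX' (J := J) hJ x (J' x) ?_ (hJ' x).2
    intro v
    have := (J' x).le_opNorm v
    rwa [(hJ' x).1] at this
  · intro J hJ T hT
    obtain ⟨⟨S, h1, h2⟩, ⟨S', h3, h4⟩⟩ := Q88.SM.both hX' (J := J) hJ (T := T) hT
    exact ⟨⟨S, h1, h2.symm⟩, ⟨S', h3, h4.symm⟩⟩

end Pool.Agent.Results.MP_cd4dc1_an.BothStronglyNormal
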